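import Pool.Agent.H14R3.KK.Defs

/-! Exponential moments of linear forms, used in CHIB and ELR (MP_d47e08_pr). -/

set_option autoImplicit false
open MeasureTheory ProbabilityTheory Filter Topology

namespace KK14.CHIBx

/-- exponential moments of a linear form of independent standard Gaussians -/
theorem expo {ι : Type*} [Fintype ι] (c : ι → ℝ) :
    Integrable (fun Z : ι → ℝ => Real.exp (∑ i, c i * Z i))
      (Measure.pi fun _ : ι => gaussianReal 0 1) ∧
    ∫ Z, Real.exp (∑ i, c i * Z i) ∂(Measure.pi fun _ : ι => gaussianReal 0 1) =
      Real.exp (∑ i, c i ^ 2 / 2) := by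
  have h1 : (fun Z : ι → ℝ => Real.exp (∑ i, c i * Z i)) =
      fun Z => ∏ i, Real.exp (c i * Z i) := by
    funext Z
    exact Real.exp_sum _ _
  rw [h1]
  constructor
  · exact Integrable.fintype_prod (f := fun i z => Real.exp (c i * z))
      fun i => integrable_exp_mul_gaussianReal (c i)
  · rw [integral_fintype_prod_eq_prod (fun i z => Real.exp (c i * z)), Real.exp_sum]
    apply Finset.prod_congr rfl
    intro i _
    have h2 := congrFun (mgf_id_gaussianReal (μ := 0) (v := 1)) (c i)
    unfold mgf at h2
    simpa using h2

end KK14.CHIBx
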