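import Pool.Agent.H14R3.KK.Defs
import Pool.Agent.H14R3.KK.S.CHIA
import Pool.Agent.H152R2.KK.Expo

/-! Task CHIB of project KK (MP_d47e08_pr). -/

set_option autoImplicit false
open MeasureTheory ProbabilityTheory Filter Topology

namespace KK14

namespace CHIBx

/-- the sign -/
noncomputable def sg (b : Bool) : ℝ := if b then 1 else -1

theorem sg_mul (a b : Bool) : sg a * sg b = sg (a == b) := by
  cases a <;> cases b <;> simp [sg]

theorem sg_sq (a : Bool) : sg a ^ 2 = 1 := by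
  cases a <;> simp [sg]

theorem xS_eq {n r : ℕ} (x : Fin n → Bool) (S : Sub n r) : xS x S = ∏ i ∈ S.1, sg (x i) := rfl

theorem xS_mul {n r : ℕ} (x y : Fin n → Bool) (S : Sub n r) :
    xS x S * xS y S = xS (fun i => x i == y i) S := by
  rw [xS_eq, xS_eq, xS_eq, ← Finset.prod_mul_distrib]
  exact Finset.prod_congr rfl fun i _ => sg_mul _ _

/-- the second elementary symmetric polynomial -/
theorem e2 {n : ℕ} (s : Fin n → ℝ) (U : Finset (Fin n)) :
    (∑ i ∈ U, s i) ^ 2 = ∑ i ∈ U, s i ^ 2 + 2 * ∑ S ∈ U.powersetCard 2, ∏ i ∈ S, s i := by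
  induction U using Finset.induction_on with
  | empty =>
    have h : (∅ : Finset (Fin n)).powersetCard 2 = ∅ := Finset.powersetCard_eq_empty.2 (by simp)
    rw [h]
    simp
  | insert a U ha ih =>
    have h1 : (insert a U).powersetCard 2 =
        U.powersetCard 2 ∪ (U.powersetCard 1).image (insert a) :=
      Finset.powersetCard_succ_insert ha 1
    have hd : Disjoint (U.powersetCard 2) ((U.powersetCard 1).image (insert a)) := by
      rw [Finset.disjoint_left]
      intro T hT hT'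
      rw [Finset.mem_image] at hT'
      obtain ⟨T', _, rfl⟩ := hT'
      rw [Finset.mem_powersetCard] at hT
      exact ha (hT.1 (Finset.mem_insert_self _ _))
    have hinj : Set.InjOn (insert a) (U.powersetCard 1 : Set (Finset (Fin n))) := by
      intro T hT T' hT' h
      rw [Finset.mem_coe, Finset.mem_powersetCard] at hT hT'
      have k1 : a ∉ T := fun k => ha (hT.1 k)
      have k2 : a ∉ T' := fun k => ha (hT'.1 k)
      rw [← Finset.erase_insert k1, ← Finset.erase_insert k2, h]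
    have h2 : ∑ S ∈ (U.powersetCard 1).image (insert a), ∏ i ∈ S, s i = s a * ∑ i ∈ U, s i := by
      rw [Finset.sum_image hinj, Finset.powersetCard_one, Finset.sum_map, Finset.mul_sum]
      apply Finset.sum_congr rfl
      intro b hb
      have hab : a ∉ ({b} : Finset (Fin n)) := by
        rw [Finset.mem_singleton]
        rintro rfl
        exact ha hb
      change ∏ i ∈ insert a {b}, s i = _
      rw [Finset.prod_insert hab, Finset.prod_singleton]
    rw [Finset.sum_insert ha, Finset.sum_insert ha, h1, Finset.sum_union hd, h2, add_sq, ih]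
    ring

theorem sum_xS {n : ℕ} (z : Fin n → Bool) :
    2 * ∑ S : Sub n 2, xS z S = (∑ i, sg (z i)) ^ 2 - n := by
  have h1 := e2 (fun i => sg (z i)) Finset.univ
  have h2 : ∑ S ∈ (Finset.univ : Finset (Fin n)).powersetCard 2, ∏ i ∈ S, sg (z i) =
      ∑ S : Sub n 2, xS z S := by
    apply Finset.sum_subtype
    intro S
    simp
  rw [h2] at h1
  simp only [sg_sq] at h1
  rw [Finset.sum_const, Finset.card_univ, Fintype.card_fin, nsmul_eq_mul, mul_one] at h1
  linarith

/-- the coefficients -/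
noncomputable def cf {n : ℕ} (lam : ℝ) (x : Fin n → Bool) (S : Sub n 2) : ℝ := lam * xS x S

theorem LR_eq (n : ℕ) (lam : ℝ) (Z : Sub n 2 → ℝ) : LR n lam Z = (1 / 2 ^ n) *
    ∑ x : Fin n → Bool, Real.exp (-∑ S, cf lam x S ^ 2 / 2) *
      Real.exp (∑ S, cf lam x S * Z S) := by
  unfold LR
  congr 1
  apply Finset.sum_congr rfl
  intro x _
  rw [← Real.exp_add]
  congr 1
  unfold cf
  ring

theorem card_eq (n : ℕ) : (Finset.univ : Finset (Fin n → Bool)).card = 2 ^ n := by
  simp

theorem LR_int (n : ℕ) (lam : ℝ) : Integrable (LR n lam) (gau n 2) ∧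
    ∫ Z, LR n lam Z ∂(gau n 2) = 1 := by
  have h0 : LR n lam = fun Z => (1 / 2 ^ n) *
    ∑ x : Fin n → Bool, Real.exp (-∑ S, cf lam x S ^ 2 / 2) *
      Real.exp (∑ S, cf lam x S * Z S) := funext (LR_eq n lam)
  have h1 : ∀ x : Fin n → Bool, Integrable (fun Z : Sub n 2 → ℝ =>
      Real.exp (-∑ S, cf lam x S ^ 2 / 2) * Real.exp (∑ S, cf lam x S * Z S)) (gau n 2) :=
    fun x => (expo (cf lam x)).1.const_mul _
  have h2 : ∀ x : Fin n → Bool, ∫ Z : Sub n 2 → ℝ,
      Real.exp (-∑ S, cf lam x S ^ 2 / 2) * Real.exp (∑ S, cf lam x S * Z S) ∂(gau n 2) = 1 := by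
    intro x
    rw [integral_const_mul]
    have := (expo (cf lam x)).2
    unfold gau
    rw [this, ← Real.exp_add, neg_add_cancel, Real.exp_zero]
  rw [h0]
  constructor
  · exact (integrable_finsetSum _ fun x _ => h1 x).const_mul _
  · rw [integral_const_mul, integral_finsetSum _ fun x _ => h1 x]
    simp only [h2]
    rw [Finset.sum_const, card_eq, nsmul_eq_mul]
    push_cast
    have : (2 : ℝ) ^ n ≠ 0 := by positivity
    field_simp

theorem LR_sq (n : ℕ) (lam : ℝ) (Z : Sub n 2 → ℝ) : LR n lam Z ^ 2 = (1 / 2 ^ n) ^ 2 *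
    ∑ x : Fin n → Bool, ∑ y : Fin n → Bool,
      Real.exp (-∑ S, cf lam x S ^ 2 / 2 - ∑ S, cf lam y S ^ 2 / 2) *
        Real.exp (∑ S, (cf lam x S + cf lam y S) * Z S) := by
  rw [LR_eq, mul_pow]
  congr 1
  rw [sq, Finset.sum_mul_sum]
  apply Finset.sum_congr rfl
  intro x _
  apply Finset.sum_congr rfl
  intro y _
  rw [← Real.exp_add, ← Real.exp_add, ← Real.exp_add, ← Real.exp_add]
  congr 1
  have : ∑ S, (cf lam x S + cf lam y S) * Z S =
      ∑ S, cf lam x S * Z S + ∑ S, cf lam y S * Z S := by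
    rw [← Finset.sum_add_distrib]
    exact Finset.sum_congr rfl fun S _ => by ring
  rw [this]
  ring

theorem expo2 (n : ℕ) (lam : ℝ) (x y : Fin n → Bool) :
    Integrable (fun Z : Sub n 2 → ℝ =>
      Real.exp (-∑ S, cf lam x S ^ 2 / 2 - ∑ S, cf lam y S ^ 2 / 2) *
        Real.exp (∑ S, (cf lam x S + cf lam y S) * Z S)) (gau n 2) ∧
    ∫ Z : Sub n 2 → ℝ, Real.exp (-∑ S, cf lam x S ^ 2 / 2 - ∑ S, cf lam y S ^ 2 / 2) *
        Real.exp (∑ S, (cf lam x S + cf lam y S) * Z S) ∂(gau n 2) =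
      Real.exp (lam ^ 2 * ∑ S : Sub n 2, xS (fun i => x i == y i) S) := by
  have h := expo (fun S : Sub n 2 => cf lam x S + cf lam y S)
  constructor
  · exact h.1.const_mul _
  · rw [integral_const_mul]
    unfold gau
    rw [h.2, ← Real.exp_add]
    congr 1
    rw [Finset.mul_sum, sub_eq_add_neg, ← Finset.sum_neg_distrib, ← Finset.sum_neg_distrib,
      ← Finset.sum_add_distrib, ← Finset.sum_add_distrib]
    apply Finset.sum_congr rfl
    intro S _
    rw [← xS_mul]
    unfold cf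
    ring

theorem beq_inv {n : ℕ} (y : Fin n → Bool) :
    Function.Involutive (fun (x : Fin n → Bool) (i : Fin n) => x i == y i) := by
  intro x
  funext i
  cases h1 : x i <;> cases h2 : y i <;> simp [h1, h2]

end CHIBx

open CHIBx in
theorem CHIB (n : ℕ) (lam : ℝ) (h : n * lam ^ 2 < 1) :
    Integrable (LR n lam) (gau n 2) ∧ Integrable (fun Z => LR n lam Z ^ 2) (gau n 2) ∧
    ∫ Z, LR n lam Z ∂(gau n 2) = 1 ∧
    ∫ Z, LR n lam Z ^ 2 ∂(gau n 2) ≤ 1 / √(1 - n * lam ^ 2) := by
  have h0 : (fun Z => LR n lam Z ^ 2) = fun Z => (1 / 2 ^ n) ^ 2 *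
    ∑ x : Fin n → Bool, ∑ y : Fin n → Bool,
      Real.exp (-∑ S, cf lam x S ^ 2 / 2 - ∑ S, cf lam y S ^ 2 / 2) *
        Real.exp (∑ S, (cf lam x S + cf lam y S) * Z S) := funext (LR_sq n lam)
  refine ⟨(LR_int n lam).1, ?_, (LR_int n lam).2, ?_⟩
  · rw [h0]
    exact (integrable_finsetSum _ fun x _ => integrable_finsetSum _ fun y _ =>
      (expo2 n lam x y).1).const_mul _
  · rw [h0, integral_const_mul, integral_finsetSum _ fun x _ =>
      integrable_finsetSum _ fun y _ => (expo2 n lam x y).1]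
    have h1 : ∀ x : Fin n → Bool, ∫ Z : Sub n 2 → ℝ, ∑ y : Fin n → Bool,
        Real.exp (-∑ S, cf lam x S ^ 2 / 2 - ∑ S, cf lam y S ^ 2 / 2) *
        Real.exp (∑ S, (cf lam x S + cf lam y S) * Z S) ∂(gau n 2) =
        ∑ y : Fin n → Bool, Real.exp (lam ^ 2 * ∑ S : Sub n 2, xS (fun i => x i == y i) S) := by
      intro x
      rw [integral_finsetSum _ fun y _ => (expo2 n lam x y).1]
      exact Finset.sum_congr rfl fun y _ => (expo2 n lam x y).2
    simp only [h1]
    rw [Finset.sum_comm]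
    have h2 : ∀ y : Fin n → Bool, ∑ x : Fin n → Bool,
        Real.exp (lam ^ 2 * ∑ S : Sub n 2, xS (fun i => x i == y i) S) =
        ∑ z : Fin n → Bool, Real.exp (lam ^ 2 * ∑ S : Sub n 2, xS z S) := by
      intro y
      exact Equiv.sum_comp (Function.Involutive.toPerm _ (beq_inv y))
        (fun z => Real.exp (lam ^ 2 * ∑ S : Sub n 2, xS z S))
    simp only [h2]
    rw [Finset.sum_const, card_eq, nsmul_eq_mul]
    have h3 : ∑ z : Fin n → Bool, Real.exp (lam ^ 2 * ∑ S : Sub n 2, xS z S) ≤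
        ∑ z : Fin n → Bool, Real.exp (lam ^ 2 * (∑ i, (if z i then (1 : ℝ) else -1)) ^ 2 / 2) := by
      apply Finset.sum_le_sum
      intro z _
      apply Real.exp_le_exp.2
      have h4 := sum_xS z
      have h5 : (0 : ℝ) ≤ n := Nat.cast_nonneg n
      have h6 : (∑ i, (if z i then (1 : ℝ) else -1)) = ∑ i, sg (z i) := rfl
      rw [h6]
      have h7 : ∑ S : Sub n 2, xS z S ≤ (∑ i, sg (z i)) ^ 2 / 2 := by linarith
      have h8 := mul_le_mul_of_nonneg_left h7 (sq_nonneg lam)
      linarith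
    have h9 := CHIA n (lam ^ 2) (sq_nonneg lam) h
    have h10 : (0 : ℝ) < 2 ^ n := by positivity
    calc (1 / 2 ^ n) ^ 2 * (((2 ^ n : ℕ) : ℝ) *
          ∑ z : Fin n → Bool, Real.exp (lam ^ 2 * ∑ S : Sub n 2, xS z S))
        = (1 / 2 ^ n) * ∑ z : Fin n → Bool, Real.exp (lam ^ 2 * ∑ S : Sub n 2, xS z S) := by
          push_cast
          field_simp
      _ ≤ (1 / 2 ^ n) * ∑ z : Fin n → Bool,
          Real.exp (lam ^ 2 * (∑ i, (if z i then (1 : ℝ) else -1)) ^ 2 / 2) :=
          mul_le_mul_of_nonneg_left h3 (by positivity)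
      _ ≤ _ := h9

end KK14
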