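import Pool.Agent.H14R3.KK.Defs
import Pool.Agent.H14R3.KK.S.SIGNX
import Pool.Agent.H14R3.KK.S.CMART
import Pool.Agent.H14R3.KK.S.INTEG
import Pool.Agent.H152R2.KK.Expo

/-! Task ELR of project KK (MP_d47e08_pr). -/

set_option autoImplicit false
open MeasureTheory ProbabilityTheory Filter Topology

namespace KK14

namespace ELRx

/-- the terms are integrable -/
theorem term_int (n l : ℕ) (c : Sub n 2 → ℝ) (d : ℝ) :
    Integrable (fun Z : Sub n 2 → ℝ =>
      lmax (kik n 2 l 0 Z) * Real.exp (∑ S, c S * Z S - d)) (gau n 2) := by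
  obtain ⟨h1, _, h3⟩ := INTEG n 2 l 0
  have hexp : Continuous fun Z : Sub n 2 → ℝ => Real.exp (∑ S, c S * Z S - d) := by fun_prop
  have h4 : Integrable (fun Z : Sub n 2 → ℝ => Real.exp (∑ S, c S * Z S - d) ^ 2) (gau n 2) := by
    have h5 := (CHIBx.expo (fun S : Sub n 2 => 2 * c S)).1.const_mul (Real.exp (-(2 * d)))
    refine h5.congr (Filter.Eventually.of_forall fun Z => ?_)
    change Real.exp (-(2 * d)) * Real.exp (∑ S, 2 * c S * Z S) =
      Real.exp (∑ S, c S * Z S - d) ^ 2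
    rw [← Real.exp_add, ← Real.exp_nat_mul]
    congr 1
    have : ∑ S, 2 * c S * Z S = 2 * ∑ S, c S * Z S := by
      rw [Finset.mul_sum]
      exact Finset.sum_congr rfl fun S _ => by ring
    rw [this]
    push_cast
    ring
  have h6 : Integrable (fun Z : Sub n 2 → ℝ => |lmax (kik n 2 l 0 Z)| ^ 2 +
      Real.exp (∑ S, c S * Z S - d) ^ 2) (gau n 2) := (h3 2).add h4
  refine h6.mono' (h1.mul hexp).aestronglyMeasurable (Filter.Eventually.of_forall fun Z => ?_)
  rw [Real.norm_eq_abs, abs_mul, abs_of_pos (Real.exp_pos _)]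
  nlinarith [sq_nonneg (|lmax (kik n 2 l 0 Z)| - Real.exp (∑ S, c S * Z S - d)),
    abs_nonneg (lmax (kik n 2 l 0 Z)), Real.exp_pos (∑ S, c S * Z S - d),
    mul_nonneg (abs_nonneg (lmax (kik n 2 l 0 Z))) (Real.exp_pos (∑ S, c S * Z S - d)).le]

end ELRx

theorem ELR (n l : ℕ) (lam : ℝ) (h : n * lam ^ 2 < 1) :
    Elm n 2 l lam = ∫ Z, lmax (kik n 2 l 0 Z) * LR n lam Z ∂(gau n 2) := by
  have h1 : ∀ x : Fin n → Bool, Elm n 2 l lam = ∫ Z, lmax (kik n 2 l 0 Z) *
      Real.exp (∑ S : Sub n 2, (lam * xS x S) * Z S - ∑ S : Sub n 2, (lam * xS x S) ^ 2 / 2)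
        ∂(gau n 2) := by
    intro x
    rw [← SIGNX n 2 l lam x]
    exact CMART (fun S : Sub n 2 => lam * xS x S) (fun Z => lmax (kik n 2 l 0 Z))
      (INTEG n 2 l 0).1
  have h2 : (fun Z : Sub n 2 → ℝ => lmax (kik n 2 l 0 Z) * LR n lam Z) = fun Z =>
      (1 / 2 ^ n) * ∑ x : Fin n → Bool, lmax (kik n 2 l 0 Z) *
        Real.exp (∑ S : Sub n 2, (lam * xS x S) * Z S -
          ∑ S : Sub n 2, (lam * xS x S) ^ 2 / 2) := by
    funext Z
    unfold LR
    rw [← Finset.mul_sum]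
    ring
  rw [h2, integral_const_mul, integral_finsetSum _ fun x _ => ELRx.term_int n l _ _]
  rw [Finset.sum_congr rfl fun x _ => (h1 x).symm, Finset.sum_const]
  have h3 : (Finset.univ : Finset (Fin n → Bool)).card = 2 ^ n := by simp
  rw [h3, nsmul_eq_mul]
  push_cast
  have : (2 : ℝ) ^ n ≠ 0 := by positivity
  field_simp

end KK14
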